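import Mathlib

/-!
# A minimally non-perfectly divisible graph with a bisimplicial vertex

The graph has `18` vertices: delete one edge of the Paley graph of order `17` and add a vertex
adjacent to the four vertices of an induced path.
-/

namespace Pool.Agent.Results.MP_090c48_co.BisimplicialMNPD

open SimpleGraph

section Definitions

variable {V : Type}

/-- `G` is perfect: every induced subgraph has chromatic number equal to its clique number. -/
def IsPerfect (G : SimpleGraph V) : Prop :=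
  ∀ S : Set V, (G.induce S).chromaticNumber = (G.induce S).cliqueNum

/-- `(A, B)` is a good partition of the vertex set of `G`: `A` and `B` partition the vertices,
the graph induced on `A` is perfect and the clique number of the graph induced on `B` is smaller
than that of `G`. -/
def IsGoodPartition (G : SimpleGraph V) (A B : Set V) : Prop :=
  A ∪ B = Set.univ ∧ Disjoint A B ∧ IsPerfect (G.induce A) ∧
    (G.induce B).cliqueNum < G.cliqueNum

/-- `G` is perfectly divisible: every induced subgraph with at least one edge has a good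
partition. -/
def IsPerfectlyDivisible (G : SimpleGraph V) : Prop :=
  ∀ S : Set V, (∃ a b : S, (G.induce S).Adj a b) →
    ∃ A B : Set S, IsGoodPartition (G.induce S) A B

/-- `G` is minimally non-perfectly divisible: it is not perfectly divisible, but every proper
induced subgraph is. -/
def IsMNPD (G : SimpleGraph V) : Prop :=
  ¬ IsPerfectlyDivisible G ∧
    ∀ S : Set V, S ≠ Set.univ → IsPerfectlyDivisible (G.induce S)

/-- `v` is bisimplicial in `G`: its neighbourhood is the union of two cliques. -/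
def IsBisimplicial (G : SimpleGraph V) (v : V) : Prop :=
  ∃ K L : Set V, G.IsClique K ∧ G.IsClique L ∧ G.neighborSet v = K ∪ L

end Definitions

/-- The adjacency masks: bit `j` of entry `i` tells whether `i` and `j` are adjacent. -/
def adjL : List ℕ :=
  [238356, 83500, 167003, 202934, 12653, 25306, 50612, 101224, 71377, 142755, 23366, 46732, 93464, 55857, 111714, 92357, 53643, 525]

/-- The triangles. -/
def triL : List (ℕ × ℕ × ℕ) :=
  [(0, 2, 4), (0, 2, 15), (0, 2, 17), (0, 4, 8), (0, 4, 13), (0, 8, 9), (0, 8, 16), (0, 9, 13), (0, 9, 17), (0, 13, 15), (0, 15, 16), (1, 2, 3), (1, 2, 10), (1, 3, 5), (1, 3, 16), (1, 5, 9), (1, 5, 14), (1, 9, 10), (1, 10, 14), (1, 14, 16), (2, 3, 4), (2, 3, 11), (2, 3, 17), (2, 4, 6), (2, 6, 10), (2, 6, 15), (2, 10, 11), (2, 11, 15), (3, 4, 5), (3, 4, 12), (3, 5, 7), (3, 7, 11), (3, 7, 16), (3, 11, 12), (3, 12, 16), (4, 5, 6), (4, 5, 13), (4, 6, 8), (4, 8, 12), (4, 12, 13), (5, 6, 7), (5, 6, 14), (5, 7, 9), (5, 9, 13), (5, 13, 14), (6, 7, 8), (6, 7,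 15), (6, 8, 10), (6, 10, 14), (6, 14, 15), (7, 8, 9), (7, 8, 16), (7, 9, 11), (7, 11, 15), (7, 15, 16), (8, 9, 10), (8, 10, 12), (8, 12, 16), (9, 10, 11), (9, 11, 13), (10, 11, 12), (10, 12, 14), (11, 12, 13), (11, 13, 15), (12, 13, 14), (12, 14, 16), (13, 14, 15), (14, 15, 16)]

/-- Some induced pentagons, in cyclic order. -/
def penL : List (ℕ × ℕ × ℕ × ℕ × ℕ) :=
  [(0, 2, 3, 7, 8), (0, 4, 3, 1, 9), (1, 2, 6, 7, 9), (1, 2, 4, 8, 9), (1, 3, 4, 8, 9), (1, 2, 6, 8, 9), (1, 3, 4, 6, 10), (1, 3, 7, 6, 10), (2, 3, 7, 8, 10), (1, 5, 7, 8, 10), (2, 4, 8, 7, 11), (0, 4, 3, 11, 9), (2, 4, 5, 9, 11), (2, 6, 5, 9, 11), (2, 6, 8, 9, 11), (3, 4, 6, 10, 11), (1, 5, 7, 11, 10), (3, 4, 8, 10, 11), (2, 3, 12, 8, 6), (3, 5, 6, 8, 12), (1, 3, 12, 8, 9), (1, 5, 4, 12, 10), (3, 7, 6, 10, 12), (0, 4, 12, 10, 9), (3, 5, 9, 10, 12), (4, 6, 7, 11, 12), (0, 2, 11, 12, 8), (2, 6, 8, 12, 11), (0, 2, 3, 5, 13), (0, 2, 6, 5, 13), (0, 8, 6, 5, 13), (3, 4, 13, 9, 7), (4, 6, 7, 9, 13), (2, 4, 13, 9, 10), (4, 6, 10,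 9, 13), (1, 2, 11, 13, 5), (2, 6, 5, 13, 11), (0, 8, 7, 11, 13), (4, 8, 7, 11, 13), (0, 8, 10, 11, 13), (4, 8, 10, 11, 13), (5, 7, 8, 12, 13), (1, 3, 12, 13, 9), (1, 3, 4, 6, 14), (1, 3, 7, 6, 14), (1, 9, 7, 6, 14), (2, 3, 5, 14, 10), (2, 4, 5, 14, 10), (1, 2, 4, 12, 14), (5, 9, 8, 12, 14), (0, 2, 1, 14, 13), (0, 2, 6, 14, 13), (0, 8, 6, 14, 13), (0, 4, 3, 7, 15), (2, 4, 5, 7, 15), (2, 4, 8, 7, 15), (0, 9, 5, 6, 15), (2, 10, 8, 7, 15), (0, 9, 10, 6, 15), (5, 6, 15, 11, 9), (0, 4, 12, 11, 15), (2, 3, 5, 13, 15), (3, 4, 13, 15, 7), (2, 10, 9, 13, 15), (2, 10, 12, 13, 15), (0, 4, 5, 14, 15), (7, 9, 10, 14, 15), (0, 4, 5, 1, 16), (0, 2, 6, 7, 16), (1, 5, 4, 8, 16), (3, 5, 9, 8, 16), (0, 9, 11, 3, 16), (1, 10, 11, 7, 16), (1, 2, 4, 12, 16), (3, 4, 6, 14, 16), (3, 4, 8, 9, 17)]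

/-- Some 3-colourable sets, each given by its three stable classes. -/
def thrL : List (ℕ × ℕ × ℕ) :=
  [(4163, 8324, 198688), (4163, 16516, 133408), (4163, 33288, 147600), (4163, 33288, 149520), (4163, 8456, 164896), (2115, 73732, 147600), (2115, 8456, 164896), (4227, 8456, 164896), (4227, 164880, 66112), (2115, 66064, 167968), (4163, 33288, 149760), (4163, 16900, 198688), (4163, 33288, 140416), (292, 149520, 37376), (16644, 33288, 197664), (8264, 66064, 149760), (2115, 8456, 147600), (2115, 33288, 197648), (4227, 65572, 164880), (4227, 65572, 149520), (4227, 16900, 204864), (163858, 292, 74752), (139330, 66052, 18688), (4228, 33296, 205824), (8456, 164896, 67648), (4163, 292, 16904), (4163, 8324, 133408), (4163, 33288, 197664), (4163, 198688, 9344), (4227, 16648, 164880), (1033, 16912, 198688), (16393, 292, 140416), (16393, 66052, 140416), (16393, 133408, 37376), (1153, 149520, 33056), (131218, 73732, 37376), (163858, 584, 9344), (133378, 73732, 16912), (4132, 33032, 140416), (4163,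 8324, 16648), (131218, 16644, 36896), (133138, 33032, 74752), (163858, 8456, 66112), (135234, 8452, 33288), (2115, 147600, 74752), (2115, 66064, 164128), (4163, 33288, 133408), (4227, 65572, 9224), (73, 66052, 133408), (73, 149520, 74752), (1057, 66052, 147600), (1057, 33288, 147600), (4129, 66052, 164880), (1153, 8456, 149520), (584, 147600, 74752), (2115, 8452, 147600), (2115, 8456, 132240), (2115, 132240, 33056), (2115, 147600, 36896), (2115, 164128, 74752), (4163, 65572, 8456), (4163, 8324, 16904), (4163, 73732, 164896), (4163, 33296, 205824), (4227, 16900, 33800), (1033, 149520, 33056), (16393, 8452, 66112), (131218, 65572, 18688), (131218, 8452, 33800), (131218, 16644, 37376), (139522, 584, 16528), (292, 33288, 205824), (292, 147600, 74752), (16900, 132240, 33056), (8456, 149520, 66592), (2115, 147600, 66592), (4163, 16900, 198672), (4163, 16900, 133408), (4163, 66052, 140416), (4227, 16644, 33800), (4227, 16912, 198720), (73, 4612, 164896), (131218, 16900, 73792), (139522, 65572,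 33296), (164098, 16904, 67600), (292, 16904, 198672), (2115, 292, 140416), (2115, 292, 205824), (2115, 8456, 197664), (2115, 16648, 66064), (2115, 16904, 132240), (2115, 16912, 167968), (2115, 197648, 33056), (4163, 65572, 140416), (4163, 8324, 164128), (4163, 16516, 164128), (73, 16644, 205824), (73, 16900, 197664), (73, 33296, 205824), (1033, 8324, 37376), (16393, 4612, 164128), (1057, 4612, 198672), (131218, 16900, 74752), (164098, 584, 67616)]

/-- The masks of the triangles. -/
def triM : List ℕ :=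
  [21, 32773, 131077, 273, 8209, 769, 65793, 8705, 131585, 40961, 98305, 14, 1030, 42, 65546, 546, 16418, 1538, 17410, 81922, 28, 2060, 131084, 84, 1092, 32836, 3076, 34820, 56, 4120, 168, 2184, 65672, 6152, 69640, 112, 8240, 336, 4368, 12304, 224, 16480, 672, 8736, 24608, 448, 32960, 1344, 17472, 49216, 896, 65920, 2688, 34944, 98432, 1792, 5376, 69888, 3584, 10752, 7168, 21504, 14336, 43008, 28672, 86016, 57344, 114688]

/-- The masks of the pentagons. -/
def penM : List ℕ :=
  [397, 539, 710, 790, 794, 838, 1114, 1226, 1420, 1442, 2452, 2585, 2612, 2660, 2884, 3160, 3234, 3352, 4428, 4456, 4874, 5170, 5320, 5649, 5672, 6352, 6405, 6468, 8237, 8293, 8545, 8856, 8912, 9748, 9808, 10278, 10340, 10625, 10640, 11521, 11536, 12704, 12810, 16474, 16586, 17090, 17452, 17460, 20502, 21280, 24583, 24645, 24897, 32921, 32948, 33172, 33377, 34180, 34369, 35424, 38929, 41004, 41112, 42500, 46084, 49201, 50816, 65587, 65733, 65842, 66344, 68105, 68738, 69654, 82008, 131864]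

/-- The masks of the complements of the 3-colourable sets. -/
def thrM : List ℕ :=
  [50968, 108056, 77092, 75172, 84628, 38696, 86676, 84564, 26924, 25996, 74932, 42392, 84276, 74955, 14547, 38055, 103972, 29092, 27464, 42824, 36152, 23241, 38073, 18795, 21143, 240784, 116248, 27028, 49948, 76388, 45510, 105042, 39282, 74966, 78414, 19817, 88357, 38121, 84563, 233008, 77385, 21221, 23717, 85169, 37676, 29836, 91284, 183120, 62610, 37798, 47434, 80198, 27082, 103014, 39207, 103976, 119332, 94732, 75532, 21148, 183952, 232752, 19352, 18860, 207216, 78534, 171186, 46665, 88673, 76905, 105509, 22739, 39499, 79947, 37575, 45836, 42408, 107672, 51512, 207472, 42284, 92562, 40233, 23753, 13541, 46275, 119320, 53912, 53908, 177316, 110884, 75148, 29324, 51992, 85528, 77336, 39602, 47506, 22950, 215410, 77010, 57802, 39273, 29845]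

/-- For each vertex `u`: a good partition `(A, B)` of the graph without `u`; `A` is given by three
stable classes, followed by `B` and by some bipartite subsets of `A` with their two classes. -/
def parL : List ((ℕ × ℕ × ℕ) × ℕ × List (ℕ × ℕ)) :=
  [((65572, 8264, 1168), 187138, [(65572, 8264), (65572, 9224), (65572, 1168), (65572, 9344), (8324, 72), (8324, 1032), (8324, 66576), (8324, 65600), (8264, 1168), (8264, 66576), (8264, 66592), (1168, 73792)]),
   ((73, 16528, 2336), 243204, [(73, 16528), (73, 18448), (73, 2336), (73, 18688), (16393, 2336), (2081, 16528), (2113, 16528), (16513, 264), (16513, 2336), (16648, 144), (16648, 2064), (16528, 2336)]),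
   ((16648, 33296, 4160), 208035, [(584, 16400), (584, 32784), (16648, 33296), (16648, 4672), (16648, 37376), (33032, 4672), (16912, 4160), (16912, 36864), (33296, 4160)]),
   ((292, 204864, 1152), 55827, [(292, 204864), (292, 140416), (292, 205824), (65572, 140416), (8324, 196672), (197664, 8256), (204864, 1152)]),
   ((16516, 33288, 2304), 210019, [(16516, 33032), (16516, 33288), (16516, 2304), (16644, 33288), (16900, 2304), (33288, 18688)]),
   ((4228, 147712, 74752), 35419, [(4228, 139520), (4228, 147712), (4228, 205824), (16516, 205824), (16644, 140416), (16644, 205824)]),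
   ((4132, 133376, 74752), 49819, [(292, 205824), (4132, 133376), (4132, 198656), (4132, 139520), (4132, 205824), (8452, 198688), (133408, 74752)]),
   ((4132, 147712, 74752), 35419, [(292, 205824), (4132, 139520), (4132, 147712), (4132, 205824), (16644, 197664), (16644, 205824)]),
   ((73732, 164880, 2080), 21195, [(65572, 164880), (65572, 133136), (73732, 164880), (73732, 133136), (73732, 164896), (73732, 133152), (164880, 67616), (198672, 9216), (198688, 9216)]),
   ((33032, 197648, 4128), 26823, [(33032, 197648), (33032, 197664), (33032, 135200), (33800, 135200), (197648, 33056), (197648, 36896)]),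
   ((8452, 198688, 36864), 17115, [(4132, 133376), (4132, 198656), (8452, 198688), (8452, 167968), (73732, 164128), (73732, 167968), (133408, 36864), (164128, 67584), (198688, 36864)]),
   ((292, 197648, 8256), 53899, [(292, 197648), (292, 204864), (292, 205824), (8452, 197648), (197648, 8256), (197664, 8256)]),
   ((292, 204864, 1152), 51739, [(292, 204864), (292, 140416), (292, 205824), (65572, 140416), (8324, 196672), (197664, 8256), (204864, 1152)]),
   ((292, 197648, 2112), 53899, [(292, 197648), (292, 198672), (292, 198720), (197648, 2336), (197648, 2112), (197664, 2112)]),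
   ((33288, 132240, 67584), 12647, [(33288, 132240), (33288, 197648), (33288, 198672), (33800, 198672), (132240, 66048), (132240, 67584)]),
   ((4228, 16648, 528), 207971, [(4228, 16648), (4228, 16904), (4228, 16912), (16644, 144), (16644, 528), (4612, 16648), (16648, 144), (16648, 528), (16904, 144)]),
   ((2115, 147472, 288), 46732, [(2115, 147472), (2115, 131360), (2115, 147712), (2081, 131090), (2081, 147472), (2081, 147712), (133138, 288), (133138, 16640), (149520, 288)]),
   ((16648, 33808, 4672), 75943, [(584, 16400), (584, 33808), (16648, 33296), (16648, 33808), (16648, 4672), (16648, 37376), (33032, 4672), (16904, 33808), (33800, 4672), (16912, 4160), (16912, 36864), (33808, 4672)])]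

/-- The graph. -/
def G : SimpleGraph (Fin 18) where
  Adj i j := (adjL.getD i 0).testBit j = true
  symm := ⟨by decide +kernel⟩
  loopless := ⟨by decide +kernel⟩

instance : DecidableRel G.Adj := fun i j =>
  inferInstanceAs (Decidable ((adjL.getD i 0).testBit j = true))

/-! ### The search -/

/-- Some member of `l` is contained in `I`. -/
noncomputable def hasSub (l : List ℕ) (I : ℕ) : Bool :=
  List.rec false (fun p _ ih => cond (Nat.beq (Nat.land p I) p) true ih) l

/-- `srch P Q vs I X = true` certifies that every set containing `I` and disjoint from `X`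
contains a member of `P` or is disjoint from a member of `Q`. -/
noncomputable def srch (P Q : List ℕ) (vs : List ℕ) : ℕ → ℕ → Bool :=
  List.rec (fun I X => cond (hasSub P I) true (hasSub Q X))
    (fun v _ ih I X => cond (hasSub P I) true (cond (hasSub Q X) true
      (cond (ih (Nat.lor I (Nat.pow 2 v)) X) (ih I (Nat.lor X (Nat.pow 2 v))) false))) vs

theorem hasSub_sound {l : List ℕ} {I : ℕ} (h : hasSub l I = true) : ∃ p ∈ l, p &&& I = p := by
  induction l with
  | nil => exact absurd h Bool.false_ne_true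
  | cons a l ih =>
    change cond (Nat.beq (Nat.land a I) a) true (hasSub l I) = true at h
    cases hb : Nat.beq (Nat.land a I) a with
    | true => exact ⟨a, List.mem_cons_self, Nat.eq_of_beq_eq_true hb⟩
    | false =>
      rw [hb] at h
      obtain ⟨p, hp, h0⟩ := ih h
      exact ⟨p, List.mem_cons_of_mem _ hp, h0⟩

theorem leaf_sound {P Q : List ℕ} {I X : ℕ} (h : hasSub P I = true ∨ hasSub Q X = true)
    (s : ℕ → Prop) (hI : ∀ j, I.testBit j = true → s j) (hX : ∀ j, X.testBit j = true → ¬ s j) :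
    (∃ p ∈ P, ∀ j, p.testBit j = true → s j) ∨ (∃ q ∈ Q, ∀ j, q.testBit j = true → ¬ s j) := by
  rcases h with h | h
  · left
    obtain ⟨p, hp, h0⟩ := hasSub_sound h
    refine ⟨p, hp, fun j hj => hI j ?_⟩
    rw [← h0, Nat.testBit_and, Bool.and_eq_true] at hj
    exact hj.2
  · right
    obtain ⟨q, hq, h0⟩ := hasSub_sound h
    refine ⟨q, hq, fun j hj => hX j ?_⟩
    rw [← h0, Nat.testBit_and, Bool.and_eq_true] at hj
    exact hj.2

theorem srch_sound {P Q : List ℕ} : ∀ (vs : List ℕ) (I X : ℕ), srch P Q vs I X = true →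
    ∀ s : ℕ → Prop, (∀ j, I.testBit j = true → s j) → (∀ j, X.testBit j = true → ¬ s j) →
    (∃ p ∈ P, ∀ j, p.testBit j = true → s j) ∨
      (∃ q ∈ Q, ∀ j, q.testBit j = true → ¬ s j) := by
  intro vs
  induction vs with
  | nil =>
    intro I X h s hI hX
    change cond (hasSub P I) true (hasSub Q X) = true at h
    apply leaf_sound _ s hI hX
    cases hb : hasSub P I with
    | true => exact Or.inl rfl
    | false => rw [hb] at h; exact Or.inr h
  | cons v vs ih =>
    intro I X h s hI hX
    change cond (hasSub P I) true (cond (hasSub Q X) true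
      (cond (srch P Q vs (I ||| 2 ^ v) X) (srch P Q vs I (X ||| 2 ^ v)) false)) = true at h
    cases hb : hasSub P I with
    | true => exact leaf_sound (Or.inl hb) s hI hX
    | false =>
      cases hc : hasSub Q X with
      | true => exact leaf_sound (Or.inr hc) s hI hX
      | false =>
        rw [hb, hc] at h
        cases hd : srch P Q vs (I ||| 2 ^ v) X with
        | false => rw [hd] at h; exact absurd h Bool.false_ne_true
        | true =>
          rw [hd] at h
          by_cases hv : s v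
          · apply ih _ _ hd s _ hX
            intro j hj
            rw [Nat.testBit_or, Bool.or_eq_true, Nat.testBit_two_pow, decide_eq_true_iff] at hj
            rcases hj with hj | hj
            · exact hI j hj
            · rwa [← hj]
          · apply ih _ _ h s hI
            intro j hj
            rw [Nat.testBit_or, Bool.or_eq_true, Nat.testBit_two_pow, decide_eq_true_iff] at hj
            rcases hj with hj | hj
            · exact hX j hj
            · rwa [← hj]

/-- The mask of a triangle. -/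
def tm (t : ℕ × ℕ × ℕ) : ℕ := 2 ^ t.1 ||| 2 ^ t.2.1 ||| 2 ^ t.2.2

/-- The mask of a pentagon. -/
def pm (t : ℕ × ℕ × ℕ × ℕ × ℕ) : ℕ :=
  2 ^ t.1 ||| 2 ^ t.2.1 ||| 2 ^ t.2.2.1 ||| 2 ^ t.2.2.2.1 ||| 2 ^ t.2.2.2.2

/-- The union of three masks. -/
def um (t : ℕ × ℕ × ℕ) : ℕ := t.1 ||| t.2.1 ||| t.2.2

theorem triM_eq : triL.map tm = triM := by decide +kernel

theorem penM_eq : penL.map pm = penM := by decide +kernel

theorem thrM_eq : thrL.map (fun t => (2 ^ 18 - 1) ^^^ um t) = thrM := by decide +kernel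

/-- The vertices in order. -/
def verts : List ℕ := [0, 1, 2, 3, 4, 5, 6, 7, 8, 9, 10, 11, 12, 13, 14, 15, 16, 17]

theorem check_part : srch triM penM verts 0 0 = true := by
  decide +kernel

theorem check_three : srch triM thrM verts 0 0 = true := by
  decide +kernel

theorem check_bip : parL.all (fun r =>
    srch triM (r.2.2.map (fun q => um r.1 &&& ((2 ^ 18 - 1) ^^^ (q.1 ||| q.2))))
      (verts.filter (fun v => (um r.1).testBit v)) 0 ((2 ^ 18 - 1) ^^^ um r.1)) = true := by
  decide +kernel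

theorem triL_spec : ∀ t ∈ triL, ∃ a : Fin 18, (a : ℕ) = t.1 ∧ ∃ b : Fin 18, (b : ℕ) = t.2.1 ∧
    ∃ c : Fin 18, (c : ℕ) = t.2.2 ∧ G.Adj a b ∧ G.Adj a c ∧ G.Adj b c := by decide +kernel

/-- Adjacency as a Boolean function on numbers. -/
def adjB (i j : ℕ) : Bool := (adjL.getD i 0).testBit j

/-- The condition for an induced pentagon in cyclic order. -/
def penOK (t : ℕ × ℕ × ℕ × ℕ × ℕ) : Bool :=
  (decide (t.1 < 18) && decide (t.2.1 < 18) && decide (t.2.2.1 < 18) &&
    decide (t.2.2.2.1 < 18) && decide (t.2.2.2.2 < 18)) &&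
  ((adjB t.1 t.2.1 && adjB t.2.1 t.2.2.1 && adjB t.2.2.1 t.2.2.2.1 &&
    adjB t.2.2.2.1 t.2.2.2.2 && adjB t.2.2.2.2 t.1) &&
  (!adjB t.1 t.2.2.1 && !adjB t.1 t.2.2.2.1 && !adjB t.2.1 t.2.2.2.1 &&
    !adjB t.2.1 t.2.2.2.2 && !adjB t.2.2.1 t.2.2.2.2))

theorem penL_ok : penL.all penOK = true := by decide +kernel

theorem penL_spec : ∀ t ∈ penL, ∃ a b c d e : Fin 18, (a : ℕ) = t.1 ∧ (b : ℕ) = t.2.1 ∧
    (c : ℕ) = t.2.2.1 ∧ (d : ℕ) = t.2.2.2.1 ∧ (e : ℕ) = t.2.2.2.2 ∧
    (G.Adj a b ∧ G.Adj b c ∧ G.Adj c d ∧ G.Adj d e ∧ G.Adj e a) ∧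
    (¬ G.Adj a c ∧ ¬ G.Adj a d ∧ ¬ G.Adj b d ∧ ¬ G.Adj b e ∧ ¬ G.Adj c e) := by
  intro t ht
  have h := List.all_eq_true.1 penL_ok t ht
  simp only [penOK, Bool.and_eq_true, decide_eq_true_eq, Bool.not_eq_true'] at h
  obtain ⟨⟨⟨⟨⟨h1, h2⟩, h3⟩, h4⟩, h5⟩, ⟨⟨⟨⟨a1, a2⟩, a3⟩, a4⟩, a5⟩, ⟨⟨⟨n1, n2⟩, n3⟩, n4⟩, n5⟩ := h
  refine ⟨⟨t.1, h1⟩, ⟨t.2.1, h2⟩, ⟨t.2.2.1, h3⟩, ⟨t.2.2.2.1, h4⟩, ⟨t.2.2.2.2, h5⟩, rfl, rfl, rfl,
    rfl, rfl, ⟨a1, a2, a3, a4, a5⟩, ?_⟩
  exact ⟨fun h' => Bool.false_ne_true (n1.symm.trans h'),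
    fun h' => Bool.false_ne_true (n2.symm.trans h'), fun h' => Bool.false_ne_true (n3.symm.trans h'),
    fun h' => Bool.false_ne_true (n4.symm.trans h'), fun h' => Bool.false_ne_true (n5.symm.trans h')⟩

/-- A stable mask. -/
def stab (s : ℕ) : Bool := (List.range 18).all fun i => !s.testBit i || (adjL.getD i 0 &&& s == 0)

theorem stab_sound {s : ℕ} (h : stab s = true) {i j : Fin 18} (hi : s.testBit i = true)
    (hj : s.testBit j = true) : ¬ G.Adj i j := by
  intro hij
  have h1 := List.all_eq_true.1 h i (List.mem_range.2 i.2)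
  rw [hi, Bool.not_true, Bool.false_or] at h1
  have h2 : adjL.getD i 0 &&& s = 0 := by simpa using h1
  have h3 : (adjL.getD i 0 &&& s).testBit j = true := by
    rw [Nat.testBit_and, hj, Bool.and_true]
    exact hij
  rw [h2] at h3
  simp at h3

theorem thrL_stab : thrL.all (fun t => stab t.1 && stab t.2.1 && stab t.2.2) = true := by
  decide +kernel

theorem parL_stab : parL.all (fun r => (stab r.1.1 && stab r.1.2.1 && stab r.1.2.2) &&
    r.2.2.all (fun q => stab q.1 && stab q.2)) = true := by decide +kernel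

theorem parL_B : ∀ r ∈ parL, triL.all (fun t => !(tm t &&& r.2.1 == tm t)) = true := by
  decide +kernel

theorem parL_cover : ∀ u : Fin 18, ∃ r ∈ parL, ∀ i : Fin 18, i ≠ u →
    ((um r.1).testBit i = true ∧ r.2.1.testBit i = false) ∨
      ((um r.1).testBit i = false ∧ r.2.1.testBit i = true) := by decide +kernel

theorem tri_complete : ∀ a b : Fin 18, G.Adj a b → ∀ c : Fin 18, G.Adj a c → G.Adj b c →
    triL.any (fun t => tm t == (2 ^ (a : ℕ) ||| 2 ^ (b : ℕ) ||| 2 ^ (c : ℕ))) = true := by
  decide +kernel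

theorem no_K4 : ∀ a b : Fin 18, G.Adj a b → ∀ c : Fin 18, G.Adj a c → G.Adj b c →
    ∀ d : Fin 18, G.Adj a d → G.Adj b d → ¬ G.Adj c d := by decide +kernel

/-! ### Consequences for sets of vertices -/

/-- `S` contains a triangle of the graph. -/
def HasTri (S : Set (Fin 18)) : Prop := ∃ a ∈ S, ∃ b ∈ S, ∃ c ∈ S, G.Adj a b ∧ G.Adj a c ∧ G.Adj b c

/-- The predicate on numbers attached to a set of vertices. -/
def pr (S : Set (Fin 18)) (j : ℕ) : Prop := ∃ h : j < 18, (⟨j, h⟩ : Fin 18) ∈ S

theorem pr_coe (S : Set (Fin 18)) (i : Fin 18) : pr S i ↔ i ∈ S :=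
  ⟨fun ⟨_, h⟩ => h, fun h => ⟨i.2, h⟩⟩

theorem hasTri_of_mask {S : Set (Fin 18)} {p : ℕ} (hp : p ∈ triM)
    (h : ∀ j, p.testBit j = true → pr S j) : HasTri S := by
  rw [← triM_eq] at hp
  obtain ⟨t, ht, rfl⟩ := List.mem_map.1 hp
  obtain ⟨a, ha, b, hb, c, hc, hab, hac, hbc⟩ := triL_spec t ht
  refine ⟨a, (pr_coe S a).1 (h a ?_), b, (pr_coe S b).1 (h b ?_), c, (pr_coe S c).1 (h c ?_),
    hab, hac, hbc⟩ <;>
  · rw [tm, Nat.testBit_or, Nat.testBit_or, ← ha, ← hb, ← hc]
    simp [Nat.testBit_two_pow_self]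

theorem partition_or {B : Set (Fin 18)} : HasTri B ∨
    ∃ a b c d e : Fin 18, (a ∉ B ∧ b ∉ B ∧ c ∉ B ∧ d ∉ B ∧ e ∉ B) ∧
    (G.Adj a b ∧ G.Adj b c ∧ G.Adj c d ∧ G.Adj d e ∧ G.Adj e a) ∧
    (¬ G.Adj a c ∧ ¬ G.Adj a d ∧ ¬ G.Adj b d ∧ ¬ G.Adj b e ∧ ¬ G.Adj c e) := by
  rcases srch_sound _ _ _ check_part (pr B) (by simp) (by simp) with ⟨p, hp, h⟩ | ⟨q, hq, h⟩
  · exact Or.inl (hasTri_of_mask hp h)
  · right
    rw [← penM_eq] at hq
    obtain ⟨t, ht, rfl⟩ := List.mem_map.1 hq
    obtain ⟨a, b, c, d, e, ha, hb, hc, hd, he, h1, h2⟩ := penL_spec t ht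
    refine ⟨a, b, c, d, e, ⟨?_, ?_, ?_, ?_, ?_⟩, h1, h2⟩
    · intro hm
      apply h a _ ((pr_coe B a).2 hm)
      simp [pm, Nat.testBit_or, ← ha, ← hb, ← hc, ← hd, ← he, Nat.testBit_two_pow_self]
    · intro hm
      apply h b _ ((pr_coe B b).2 hm)
      simp [pm, Nat.testBit_or, ← ha, ← hb, ← hc, ← hd, ← he, Nat.testBit_two_pow_self]
    · intro hm
      apply h c _ ((pr_coe B c).2 hm)
      simp [pm, Nat.testBit_or, ← ha, ← hb, ← hc, ← hd, ← he, Nat.testBit_two_pow_self]
    · intro hm
      apply h d _ ((pr_coe B d).2 hm)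
      simp [pm, Nat.testBit_or, ← ha, ← hb, ← hc, ← hd, ← he, Nat.testBit_two_pow_self]
    · intro hm
      apply h e _ ((pr_coe B e).2 hm)
      simp [pm, Nat.testBit_or, ← ha, ← hb, ← hc, ← hd, ← he, Nat.testBit_two_pow_self]

theorem testBit_full {i : ℕ} (hi : i < 18) : (2 ^ 18 - 1 : ℕ).testBit i = true := by
  rw [Nat.testBit_two_pow_sub_one]
  simpa using hi

/-- The colour of a vertex given three classes. -/
def col (t : ℕ × ℕ × ℕ) (i : Fin 18) : Fin 3 :=
  if t.1.testBit i then 0 else if t.2.1.testBit i then 1 else 2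

theorem col_proper {t : ℕ × ℕ × ℕ} (h : (stab t.1 && stab t.2.1 && stab t.2.2) = true)
    {i j : Fin 18} (hi : (um t).testBit i = true) (hj : (um t).testBit j = true)
    (hij : G.Adj i j) : col t i ≠ col t j := by
  rw [Bool.and_eq_true, Bool.and_eq_true] at h
  obtain ⟨⟨h1, h2⟩, h3⟩ := h
  rw [um, Nat.testBit_or, Nat.testBit_or] at hi hj
  unfold col
  cases hi1 : t.1.testBit i <;> cases hj1 : t.1.testBit j <;>
    cases hi2 : t.2.1.testBit i <;> cases hj2 : t.2.1.testBit j <;>
    simp only [hi1, hj1, hi2, hj2, Bool.false_or, Bool.true_or, if_true, Bool.false_eq_true,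
      if_false] at hi hj ⊢ <;> try decide
  · exact absurd hij (stab_sound h3 hi hj)
  · exact absurd hij (stab_sound h2 hi2 hj2)
  all_goals exact absurd hij (stab_sound h1 hi1 hj1)

theorem three_colourable {S : Set (Fin 18)} (hS : ¬ HasTri S) :
    ∃ c : Fin 18 → Fin 3, ∀ i ∈ S, ∀ j ∈ S, G.Adj i j → c i ≠ c j := by
  rcases srch_sound _ _ _ check_three (pr S) (by simp) (by simp) with ⟨p, hp, h⟩ | ⟨q, hq, h⟩
  · exact absurd (hasTri_of_mask hp h) hS
  · rw [← thrM_eq] at hq
    obtain ⟨t, ht, rfl⟩ := List.mem_map.1 hq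
    have hin : ∀ i ∈ S, (um t).testBit i = true := by
      intro i hi
      have h1 := h i
      rw [Nat.testBit_xor, testBit_full i.2] at h1
      cases hb : (um t).testBit i with
      | true => rfl
      | false =>
        rw [hb] at h1
        exact absurd ((pr_coe S i).2 hi) (h1 rfl)
    refine ⟨col t, fun i hi j hj hij => col_proper (List.all_eq_true.1 thrL_stab t ht)
      (hin i hi) (hin j hj) hij⟩

/-- A set all of whose triangle-free subsets are bipartite and which is 3-colourable. -/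
def Nice (A : Set (Fin 18)) : Prop :=
  (∃ c : Fin 18 → Fin 3, ∀ i ∈ A, ∀ j ∈ A, G.Adj i j → c i ≠ c j) ∧
    ∀ T ⊆ A, ¬ HasTri T → ∃ c : Fin 18 → Fin 2, ∀ i ∈ T, ∀ j ∈ T, G.Adj i j → c i ≠ c j

theorem nice_of_mem {r : (ℕ × ℕ × ℕ) × ℕ × List (ℕ × ℕ)} (hr : r ∈ parL) :
    Nice {i : Fin 18 | (um r.1).testBit i = true} := by
  have hst := List.all_eq_true.1 parL_stab r hr
  rw [Bool.and_eq_true] at hst
  refine ⟨⟨col r.1, fun i hi j hj hij => col_proper hst.1 hi hj hij⟩, fun T hT hTri => ?_⟩
  have hb := List.all_eq_true.1 check_bip r hr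
  rcases srch_sound _ _ _ hb (pr T) (by simp) (by
    intro j hj hp
    obtain ⟨hlt, hm⟩ := hp
    have h1 := hT hm
    change (um r.1).testBit j = true at h1
    rw [Nat.testBit_xor, testBit_full hlt, h1] at hj
    exact absurd hj (by decide)) with ⟨p, hp, h⟩ | ⟨q, hq, h⟩
  · exact absurd (hasTri_of_mask hp h) hTri
  · obtain ⟨t, ht, rfl⟩ := List.mem_map.1 hq
    have hst2 := List.all_eq_true.1 hst.2 t ht
    rw [Bool.and_eq_true] at hst2
    have hin : ∀ i ∈ T, t.1.testBit i = true ∨ t.2.testBit i = true := by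
      intro i hi
      have h1 := h i
      have h2 : (um r.1).testBit i = true := hT hi
      rw [Nat.testBit_and, h2, Nat.testBit_xor, testBit_full i.2, Nat.testBit_or] at h1
      cases hb1 : t.1.testBit i with
      | true => exact Or.inl rfl
      | false =>
        cases hb2 : t.2.testBit i with
        | true => exact Or.inr rfl
        | false =>
          rw [hb1, hb2] at h1
          exact absurd ((pr_coe T i).2 hi) (h1 rfl)
    refine ⟨fun i => if t.1.testBit i then 0 else 1, fun i hi j hj hij => ?_⟩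
    cases hi1 : t.1.testBit i <;> cases hj1 : t.1.testBit j
    · have hi2 := (hin i hi).resolve_left (by simp [hi1])
      have hj2 := (hin j hj).resolve_left (by simp [hj1])
      exact absurd hij (stab_sound hst2.2 hi2 hj2)
    · simp [hi1, hj1]
    · simp [hi1, hj1]
    · exact absurd hij (stab_sound hst2.1 hi1 hj1)

theorem good_mask (u : Fin 18) : ∃ A B : Set (Fin 18), Nice A ∧ ¬ HasTri B ∧
    ∀ i : Fin 18, i ≠ u → ((i ∈ A ∧ i ∉ B) ∨ (i ∉ A ∧ i ∈ B)) := by
  obtain ⟨r, hr, h⟩ := parL_cover u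
  refine ⟨{i : Fin 18 | (um r.1).testBit i = true}, {i : Fin 18 | r.2.1.testBit i = true},
    nice_of_mem hr, ?_, ?_⟩
  · rintro ⟨a, ha, b, hb, c, hc, hab, hac, hbc⟩
    obtain ⟨t, ht, h0⟩ := List.any_eq_true.1 (tri_complete a b hab c hac hbc)
    have h0' : tm t = 2 ^ (a : ℕ) ||| 2 ^ (b : ℕ) ||| 2 ^ (c : ℕ) := by simpa using h0
    have h1 := List.all_eq_true.1 (parL_B r hr) t ht
    rw [Bool.not_eq_true'] at h1
    have h2 : tm t &&& r.2.1 = tm t := by
      apply Nat.eq_of_testBit_eq
      intro j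
      rw [Nat.testBit_and]
      cases hj : (tm t).testBit j with
      | false => rfl
      | true =>
        rw [h0', Nat.testBit_or, Nat.testBit_or, Bool.or_eq_true, Bool.or_eq_true,
          Nat.testBit_two_pow, Nat.testBit_two_pow, Nat.testBit_two_pow, decide_eq_true_iff,
          decide_eq_true_iff, decide_eq_true_iff] at hj
        rcases hj with (hj | hj) | hj
        · rw [← hj, Bool.true_and]; exact ha
        · rw [← hj, Bool.true_and]; exact hb
        · rw [← hj, Bool.true_and]; exact hc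
    rw [h2] at h1
    simp at h1
  · intro i hi
    rcases h i hi with ⟨h1, h2⟩ | ⟨h1, h2⟩
    · left
      exact ⟨h1, by simp [h2]⟩
    · right
      exact ⟨by simp [h1], h2⟩

/-! ### Graph-theoretic part -/

theorem chi_eq_of {W : Type} [Finite W] {H : SimpleGraph W} (n : ℕ) (hc : H.Colorable n)
    (hn : n ≤ H.cliqueNum) : H.chromaticNumber = H.cliqueNum := by
  apply le_antisymm
  · exact hc.chromaticNumber_le.trans (by exact_mod_cast hn)
  · exact cliqueNum_le_chromaticNumber

theorem cliqueNum_lt_of {W : Type} {H : SimpleGraph W} {n : ℕ} (h : H.CliqueFree n) :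
    H.cliqueNum < n := by
  by_contra hn
  obtain ⟨s, hs⟩ := H.exists_isNClique_cliqueNum
  exact (h.mono (not_lt.1 hn)) s hs

theorem le_cliqueNum_of {W : Type} [Finite W] {H : SimpleGraph W} {n : ℕ}
    (h : ¬ H.CliqueFree n) : n ≤ H.cliqueNum := by
  unfold SimpleGraph.CliqueFree at h
  push Not at h
  obtain ⟨s, hs⟩ := h
  rw [← hs.card_eq]
  exact IsClique.card_le_cliqueNum (tc := hs.isClique)

theorem exists_map_of {W : Type} {H : SimpleGraph W} {n : ℕ} (h : ¬ H.CliqueFree n) :
    ∃ e : Fin n → W, ∀ i j, i ≠ j → H.Adj (e i) (e j) := by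
  unfold SimpleGraph.CliqueFree at h
  push Not at h
  obtain ⟨s, hs⟩ := h
  let e := (Finset.equivFinOfCardEq hs.card_eq).symm
  refine ⟨fun i => (e i : W), fun i j hij => ?_⟩
  apply hs.isClique (e i).2 (e j).2
  intro h
  exact hij (e.injective (Subtype.ext h))

theorem comap_cliqueFree_four {W : Type} {f : W → Fin 18} : (G.comap f).CliqueFree 4 := by
  by_contra h
  obtain ⟨e, he⟩ := exists_map_of h
  have had : ∀ i j : Fin 4, i ≠ j → G.Adj (f (e i)) (f (e j)) := fun i j hij => he i j hij
  exact no_K4 _ _ (had 0 1 (by decide)) _ (had 0 2 (by decide)) (had 1 2 (by decide)) _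
    (had 0 3 (by decide)) (had 1 3 (by decide)) (had 2 3 (by decide))

theorem comap_cliqueFree_three {W : Type} {f : W → Fin 18} (h : ¬ HasTri (Set.range f)) :
    (G.comap f).CliqueFree 3 := by
  by_contra h'
  obtain ⟨e, he⟩ := exists_map_of h'
  have had : ∀ i j : Fin 3, i ≠ j → G.Adj (f (e i)) (f (e j)) := fun i j hij => he i j hij
  exact h ⟨_, ⟨e 0, rfl⟩, _, ⟨e 1, rfl⟩, _, ⟨e 2, rfl⟩, had 0 1 (by decide), had 0 2 (by decide),
    had 1 2 (by decide)⟩

theorem comap_not_cliqueFree_three {W : Type} {f : W → Fin 18} (h : HasTri (Set.range f)) :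
    ¬ (G.comap f).CliqueFree 3 := by
  obtain ⟨_, ⟨a, rfl⟩, _, ⟨b, rfl⟩, _, ⟨c, rfl⟩, hab, hac, hbc⟩ := h
  classical
  intro hcf
  apply hcf {a, b, c}
  rw [is3Clique_triple_iff]
  exact ⟨hab, hac, hbc⟩

theorem comap_not_cliqueFree_two {W : Type} {f : W → Fin 18} {a b : W} (h : G.Adj (f a) (f b)) :
    ¬ (G.comap f).CliqueFree 2 := by
  classical
  intro hcf
  have hab : (G.comap f).Adj a b := h
  apply hcf {a, b}
  rw [isNClique_iff]
  refine ⟨?_, Finset.card_pair hab.ne⟩
  rw [Finset.coe_pair, isClique_pair]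
  exact fun _ => hab

theorem comap_colorable {W : Type} {f : W → Fin 18} {n : ℕ} {T : Set (Fin 18)}
    (hf : ∀ w, f w ∈ T)
    (h : ∃ c : Fin 18 → Fin n, ∀ i ∈ T, ∀ j ∈ T, G.Adj i j → c i ≠ c j) :
    (G.comap f).Colorable n := by
  obtain ⟨c, hc⟩ := h
  exact ⟨Coloring.mk (fun w => c (f w)) (fun {u v} huv => hc _ (hf u) _ (hf v) huv)⟩

theorem chi_eq_nice {A : Set (Fin 18)} (hA : Nice A) {W : Type} [Finite W] {f : W → Fin 18}
    (hf : ∀ w, f w ∈ A) : (G.comap f).chromaticNumber = (G.comap f).cliqueNum := by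
  by_cases ht : HasTri (Set.range f)
  · exact chi_eq_of 3 (comap_colorable hf hA.1) (le_cliqueNum_of (comap_not_cliqueFree_three ht))
  · by_cases he : ∃ a b : W, G.Adj (f a) (f b)
    · obtain ⟨a, b, hab⟩ := he
      refine chi_eq_of 2 (comap_colorable (T := Set.range f) (fun w => ⟨w, rfl⟩) (hA.2 _ ?_ ht))
        (le_cliqueNum_of (comap_not_cliqueFree_two hab))
      rintro _ ⟨w, rfl⟩
      exact hf w
    · cases isEmpty_or_nonempty W with
      | inl hW =>
        have hcol : (G.comap f).Colorable 0 :=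
          ⟨Coloring.mk (fun w => (hW.false w).elim) (fun {u} => (hW.false u).elim)⟩
        exact chi_eq_of 0 hcol (Nat.zero_le _)
      | inr hW =>
        obtain ⟨w0⟩ := hW
        have hcol : (G.comap f).Colorable 1 :=
          ⟨Coloring.mk (fun _ => 0) (fun {u v} huv => (he ⟨u, v, huv⟩).elim)⟩
        refine chi_eq_of 1 hcol ?_
        apply le_cliqueNum_of
        intro hcf
        apply hcf {w0}
        rw [isNClique_iff]
        simp

theorem isPerfect_comap {A : Set (Fin 18)} (hA : Nice A) {W : Type} [Finite W] {f : W → Fin 18}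
    (hf : ∀ w, f w ∈ A) : IsPerfect (G.comap f) := by
  intro S
  exact chi_eq_nice hA (f := fun w : S => f w) (fun w => hf w)

theorem nice_of_bip {A : Set (Fin 18)}
    (h : ∃ c : Fin 18 → Fin 2, ∀ i ∈ A, ∀ j ∈ A, G.Adj i j → c i ≠ c j) : Nice A := by
  obtain ⟨c, hc⟩ := h
  refine ⟨⟨fun i => (c i).castSucc, fun i hi j hj hij he => hc i hi j hj hij ?_⟩, fun T hT _ =>
    ⟨c, fun i hi j hj => hc i (hT hi) j (hT hj)⟩⟩
  exact Fin.castSucc_injective _ he

/-- Every induced subgraph other than the whole graph, with an edge, has a good partition. -/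
theorem good_comap {W : Type} [Finite W] {f : W → Fin 18} {u : Fin 18}
    (hu : ∀ w, f w ≠ u) {a b : W} (hab : G.Adj (f a) (f b)) :
    ∃ A B : Set W, IsGoodPartition (G.comap f) A B := by
  by_cases ht : HasTri (Set.range f)
  · obtain ⟨A, B, hA, hB, hAB⟩ := good_mask u
    refine ⟨f ⁻¹' A, f ⁻¹' B, ?_, ?_, ?_, ?_⟩
    · ext w
      simp only [Set.mem_union, Set.mem_preimage, Set.mem_univ, iff_true]
      rcases hAB (f w) (hu w) with h | h
      · exact Or.inl h.1
      · exact Or.inr h.2
    · rw [Set.disjoint_left]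
      intro w hw hw'
      rcases hAB (f w) (hu w) with h | h
      · exact h.2 hw'
      · exact h.1 hw
    · exact isPerfect_comap hA (f := fun w : (f ⁻¹' A : Set W) => f w) (fun w => w.2)
    · refine lt_of_lt_of_le ?_ (le_cliqueNum_of (comap_not_cliqueFree_three ht))
      apply cliqueNum_lt_of
      apply comap_cliqueFree_three (f := fun w : (f ⁻¹' B : Set W) => f w)
      rintro ⟨_, ⟨x, rfl⟩, _, ⟨y, rfl⟩, _, ⟨z, rfl⟩, h⟩
      exact hB ⟨_, x.2, _, y.2, _, z.2, h⟩
  · obtain ⟨c, hc⟩ := three_colourable ht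
    refine ⟨{w | c (f w) ≠ 2}, {w | c (f w) = 2}, ?_, ?_, ?_, ?_⟩
    · ext w
      simp only [Set.mem_union, Set.mem_ofPred_eq, Set.mem_univ, iff_true]
      exact (em (c (f w) = 2)).symm
    · rw [Set.disjoint_left]
      intro w hw hw'
      exact hw hw'
    · have hnice : Nice {i | i ∈ Set.range f ∧ c i ≠ 2} := by
        apply nice_of_bip
        refine ⟨fun i => if c i = 0 then 0 else 1, ?_⟩
        rintro i ⟨hi, hi2⟩ j ⟨hj, hj2⟩ hij
        have hne := hc i hi j hj hij
        have key : ∀ x y : Fin 3, x ≠ 2 → y ≠ 2 → x ≠ y →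
            (if x = 0 then (0 : Fin 2) else 1) ≠ (if y = 0 then 0 else 1) := by decide
        exact key _ _ hi2 hj2 hne
      exact isPerfect_comap hnice (f := fun w : ({w | c (f w) ≠ 2} : Set W) => f w)
        (fun w => ⟨⟨w, rfl⟩, w.2⟩)
    · refine lt_of_lt_of_le ?_ (le_cliqueNum_of (comap_not_cliqueFree_two hab))
      apply cliqueNum_lt_of
      classical
      intro s hs
      rw [isNClique_iff] at hs
      obtain ⟨x, y, hxy, rfl⟩ := Finset.card_eq_two.1 hs.2
      have hadj : G.Adj (f x) (f y) := hs.1 (by simp) (by simp) hxy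
      exact hc _ ⟨x, rfl⟩ _ ⟨y, rfl⟩ hadj (x.2.trans y.2.symm)

/-- The whole graph has no good partition. -/
theorem no_good {W : Type} [Finite W] {f : W → Fin 18} (hf : Function.Surjective f)
    (A B : Set W) : ¬ IsGoodPartition (G.comap f) A B := by
  rintro ⟨hcup, hdis, hperf, hlt⟩
  have hlt' : (G.comap f).cliqueNum < 4 := cliqueNum_lt_of comap_cliqueFree_four
  rcases partition_or (B := f '' B) with h | ⟨a, b, c, d, e, ⟨ha, hb, hc, hd, he⟩, hcyc, hnon⟩
  · have h3 : 3 ≤ ((G.comap f).induce B).cliqueNum := by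
      apply le_cliqueNum_of
      apply comap_not_cliqueFree_three (f := fun w : B => f w)
      obtain ⟨_, ⟨x, hx, rfl⟩, _, ⟨y, hy, rfl⟩, _, ⟨z, hz, rfl⟩, h⟩ := h
      exact ⟨_, ⟨⟨x, hx⟩, rfl⟩, _, ⟨⟨y, hy⟩, rfl⟩, _, ⟨⟨z, hz⟩, rfl⟩, h⟩
    omega
  · have hmem : ∀ w : W, f w ∉ f '' B → w ∈ A := by
      intro w hw
      have : w ∈ A ∪ B := by rw [hcup]; trivial
      rcases this with h | h
      · exact h
      · exact absurd ⟨w, h, rfl⟩ hw
    obtain ⟨a', rfl⟩ := hf a
    obtain ⟨b', rfl⟩ := hf b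
    obtain ⟨c', rfl⟩ := hf c
    obtain ⟨d', rfl⟩ := hf d
    obtain ⟨e', rfl⟩ := hf e
    let a2 : A := ⟨a', hmem _ ha⟩
    let b2 : A := ⟨b', hmem _ hb⟩
    let c2 : A := ⟨c', hmem _ hc⟩
    let d2 : A := ⟨d', hmem _ hd⟩
    let e2 : A := ⟨e', hmem _ he⟩
    have hS := hperf {a2, b2, c2, d2, e2}
    obtain ⟨h1, h2, h3, h4, h5⟩ := hcyc
    obtain ⟨n1, n2, n3, n4, n5⟩ := hnon
    have n1' := fun h : G.Adj (f c') (f a') => n1 h.symm
    have n2' := fun h : G.Adj (f d') (f a') => n2 h.symm
    have n3' := fun h : G.Adj (f d') (f b') => n3 h.symm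
    have n4' := fun h : G.Adj (f e') (f b') => n4 h.symm
    have n5' := fun h : G.Adj (f e') (f c') => n5 h.symm
    have hlt3 : (((G.comap f).induce A).induce {a2, b2, c2, d2, e2}).cliqueNum < 3 := by
      apply cliqueNum_lt_of
      by_contra h'
      obtain ⟨g, hg⟩ := exists_map_of h'
      have had : ∀ i j : Fin 3, i ≠ j → G.Adj (f (g i).1.1) (f (g j).1.1) :=
        fun i j hij => hg i j hij
      have hm : ∀ i : Fin 3, (g i).1.1 = a' ∨ (g i).1.1 = b' ∨ (g i).1.1 = c' ∨ (g i).1.1 = d' ∨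
          (g i).1.1 = e' := by
        intro i
        have := (g i).2
        simp only [Set.mem_insert_iff, Set.mem_singleton_iff] at this
        rcases this with h | h | h | h | h <;> rw [h] <;> simp [a2, b2, c2, d2, e2]
      have h01 := had 0 1 (by decide)
      have h02 := had 0 2 (by decide)
      have h12 := had 1 2 (by decide)
      have hirr : ∀ x, ¬ G.Adj x x := fun x => G.loopless.irrefl x
      rcases hm 0 with h | h | h | h | h <;> rw [h] at h01 h02 <;>
        rcases hm 1 with h' | h' | h' | h' | h' <;> rw [h'] at h01 h12 <;>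
        first
          | exact hirr _ h01
          | exact n1 h01
          | exact n2 h01
          | exact n3 h01
          | exact n4 h01
          | exact n5 h01
          | exact n1' h01
          | exact n2' h01
          | exact n3' h01
          | exact n4' h01
          | exact n5' h01
          | (rcases hm 2 with h'' | h'' | h'' | h'' | h'' <;> rw [h''] at h02 h12 <;>
              first
                | exact hirr _ h02
                | exact n1 h02
                | exact n2 h02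
                | exact n3 h02
                | exact n4 h02
                | exact n5 h02
                | exact n1' h02
                | exact n2' h02
                | exact n3' h02
                | exact n4' h02
                | exact n5' h02
                | exact hirr _ h12
                | exact n1 h12
                | exact n2 h12
                | exact n3 h12
                | exact n4 h12
                | exact n5 h12
                | exact n1' h12
                | exact n2' h12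
                | exact n3' h12
                | exact n4' h12
                | exact n5' h12)
    have hcol : (((G.comap f).induce A).induce {a2, b2, c2, d2, e2}).Colorable 2 := by
      apply chromaticNumber_le_iff_colorable.1
      rw [hS]
      exact_mod_cast Nat.lt_succ_iff.1 hlt3
    obtain ⟨C⟩ := hcol
    let a3 : ({a2, b2, c2, d2, e2} : Set A) := ⟨a2, by simp⟩
    let b3 : ({a2, b2, c2, d2, e2} : Set A) := ⟨b2, by simp⟩
    let c3 : ({a2, b2, c2, d2, e2} : Set A) := ⟨c2, by simp⟩
    let d3 : ({a2, b2, c2, d2, e2} : Set A) := ⟨d2, by simp⟩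
    let e3 : ({a2, b2, c2, d2, e2} : Set A) := ⟨e2, by simp⟩
    have k1 : C a3 ≠ C b3 := C.valid h1
    have k2 : C b3 ≠ C c3 := C.valid h2
    have k3 : C c3 ≠ C d3 := C.valid h3
    have k4 : C d3 ≠ C e3 := C.valid h4
    have k5 : C e3 ≠ C a3 := C.valid h5
    have key : ∀ p q r s t : Fin 2, ¬ (p ≠ q ∧ q ≠ r ∧ r ≠ s ∧ s ≠ t ∧ t ≠ p) := by decide
    exact key _ _ _ _ _ ⟨k1, k2, k3, k4, k5⟩

theorem isMNPD_G : IsMNPD G := by
  refine ⟨fun h => ?_, fun S hS T hT => ?_⟩
  · have hadj : G.Adj 0 2 := by decide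
    obtain ⟨A, B, hAB⟩ := h Set.univ ⟨⟨0, trivial⟩, ⟨2, trivial⟩, hadj⟩
    exact no_good (f := fun w : (Set.univ : Set (Fin 18)) => (w : Fin 18))
      (fun x => ⟨⟨x, trivial⟩, rfl⟩) A B hAB
  · obtain ⟨u, hu⟩ := (Set.ne_univ_iff_exists_notMem S).1 hS
    obtain ⟨a, b, hab⟩ := hT
    exact good_comap (f := fun w : T => ((w : S) : Fin 18)) (u := u)
      (fun w h => hu (h ▸ (w : S).2)) hab

theorem bisimplicial_G : IsBisimplicial G 17 := by
  refine ⟨{0, 9}, {2, 3}, ?_, ?_, ?_⟩
  · rw [isClique_pair]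
    exact fun _ => by decide
  · rw [isClique_pair]
    exact fun _ => by decide
  · ext x
    rw [mem_neighborSet, Set.mem_union, Set.mem_insert_iff, Set.mem_insert_iff,
      Set.mem_singleton_iff, Set.mem_singleton_iff]
    revert x
    decide

/-- Some minimally non-perfectly divisible graph has a bisimplicial vertex. -/
theorem result : ∃ G : SimpleGraph (Fin 18), IsMNPD G ∧ ∃ v, IsBisimplicial G v :=
  ⟨G, isMNPD_G, 17, bisimplicial_G⟩

end Pool.Agent.Results.MP_090c48_co.BisimplicialMNPD
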